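import Pool.Agent.Helper45.SD.Goals

set_option autoImplicit false

/-! Packets EDGE and K2 of MP_9415b6_co. -/

open Finset

namespace Pool.Agent.Helper96.SD

open Pool.Agent.Helper45.SD

theorem ex_not {n : ℕ} [NeZero n] (s : Finset (ZMod n)) (h : s.card < n) : ∃ y, y ∉ s := by
  by_contra hc
  push Not at hc
  have h1 : s = univ := eq_univ_iff_forall.2 hc
  rw [h1, card_univ, ZMod.card] at h
  exact lt_irrefl _ h

theorem mem_bl {n : ℕ} [NeZero n] {k : ℕ} {x : ZMod n} {T : Finset (ZMod n)} :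
    T ∈ bl n k x ↔ (T ⊆ univ.erase 0 ∧ T.card = k) ∧ ∑ t ∈ T, t = x := by
  rw [bl, mem_filter, mem_powersetCard]

theorem deg_pos {n : ℕ} [NeZero n] {k : ℕ} {x y : ZMod n} {T : Finset (ZMod n)}
    (h : T ∈ bl n k x) (hy : y ∈ T) : 0 < deg n k x y :=
  card_pos.2 ⟨T, mem_filter.2 ⟨h, hy⟩⟩

theorem deg_zero {n : ℕ} [NeZero n] {k : ℕ} {x y : ZMod n}
    (h : ∀ T ∈ bl n k x, y ∉ T) : deg n k x y = 0 := by
  rw [deg, card_eq_zero, filter_eq_empty_iff]
  exact h

theorem not_des {n : ℕ} [NeZero n] {k : ℕ} {x y z : ZMod n} (hy : y ≠ 0) (hz : z ≠ 0)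
    (h1 : 0 < deg n k x y) (h2 : deg n k x z = 0) : ¬ Des n k x := by
  rintro ⟨r, hr⟩
  rw [hr y hy] at h1
  rw [hr z hz] at h2
  omega

theorem card_P {n : ℕ} [NeZero n] : (univ.erase (0 : ZMod n)).card = n - 1 := by
  rw [card_erase_of_mem (mem_univ _), card_univ, ZMod.card]

theorem sum_P {n : ℕ} [NeZero n] : ∑ t ∈ univ.erase (0 : ZMod n), t = ∑ t : ZMod n, t := by
  rw [← add_sum_erase univ (fun t : ZMod n => t) (mem_univ 0), zero_add]

/-- an `(n - 2)`-subset of the nonzero elements misses one element -/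
theorem miss {n : ℕ} [NeZero n] (hn : 3 ≤ n) {x : ZMod n} {T : Finset (ZMod n)}
    (h : T ∈ bl n (n - 2) x) : ∃ z, z ≠ 0 ∧ z = (∑ t : ZMod n, t) - x ∧
      ∀ y, y ∈ T ↔ y ≠ 0 ∧ y ≠ z := by
  obtain ⟨⟨h1, h2⟩, h3⟩ := mem_bl.1 h
  have h4 : (univ.erase (0 : ZMod n) \ T).card = 1 := by
    rw [card_sdiff_of_subset h1, card_P, h2]
    omega
  obtain ⟨z, hz⟩ := card_eq_one.1 h4
  have hz' : z ∈ univ.erase (0 : ZMod n) \ T := by rw [hz]; exact mem_singleton_self z
  have hz1 := mem_sdiff.1 hz'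
  refine ⟨z, (mem_erase.1 hz1.1).1, ?_, fun y => ⟨fun hy => ⟨(mem_erase.1 (h1 hy)).1, ?_⟩,
    fun hy => ?_⟩⟩
  · have h5 := sum_sdiff (f := fun t : ZMod n => t) h1
    rw [hz, sum_singleton, h3, sum_P] at h5
    rw [← h5]
    ring
  · rintro rfl
    exact hz1.2 hy
  · by_contra hc
    have h6 : y ∈ univ.erase (0 : ZMod n) \ T :=
      mem_sdiff.2 ⟨mem_erase.2 ⟨hy.1, mem_univ _⟩, hc⟩
    rw [hz, mem_singleton] at h6
    exact hy.2 h6

theorem edge : G_EDGE := by
  intro n _ x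
  refine ⟨fun hn => ?_, fun hn => ?_, ⟨fun h => ?_, fun h => ?_⟩⟩
  · rintro ⟨⟨T, hT⟩, hD⟩
    obtain ⟨⟨h1, h2⟩, h3⟩ := mem_bl.1 hT
    obtain ⟨t, rfl⟩ := card_eq_one.1 h2
    rw [sum_singleton] at h3
    subst h3
    have ht : t ≠ 0 := (mem_erase.1 (h1 (mem_singleton_self t))).1
    obtain ⟨y, hy⟩ := ex_not ({0, t} : Finset (ZMod n)) (lt_of_le_of_lt card_le_two hn)
    simp only [mem_insert, mem_singleton, not_or] at hy
    refine not_des ht hy.1 (deg_pos hT (mem_singleton_self t)) (deg_zero fun T hT hyT => ?_) hD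
    obtain ⟨⟨_, h5⟩, h6⟩ := mem_bl.1 hT
    obtain ⟨t', rfl⟩ := card_eq_one.1 h5
    rw [sum_singleton] at h6
    rw [mem_singleton] at hyT
    exact hy.2 (hyT.trans h6)
  · rintro ⟨⟨T, hT⟩, hD⟩
    obtain ⟨z, hz0, hz, hz1⟩ := miss hn hT
    obtain ⟨y, hy⟩ := ex_not ({0, z} : Finset (ZMod n)) (lt_of_le_of_lt card_le_two hn)
    simp only [mem_insert, mem_singleton, not_or] at hy
    refine not_des hy.1 hz0 (deg_pos hT ((hz1 y).2 hy)) (deg_zero fun T' hT' hzT => ?_) hD
    obtain ⟨z', _, hz', hz1'⟩ := miss hn hT'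
    exact ((hz1' z).1 hzT).2 (hz.trans hz'.symm)
  · obtain ⟨⟨T, hT⟩, _⟩ := h
    obtain ⟨⟨h1, h2⟩, h3⟩ := mem_bl.1 hT
    have h4 : T = univ.erase 0 := eq_of_subset_of_card_le h1 (by rw [card_P, h2])
    rw [← h3, h4, sum_P]
  · have h1 : univ.erase (0 : ZMod n) ∈ bl n (n - 1) x :=
      mem_bl.2 ⟨⟨Subset.rfl, card_P⟩, by rw [sum_P, h]⟩
    refine ⟨⟨_, h1⟩, 1, fun y hy => ?_⟩
    rw [deg, card_eq_one]
    refine ⟨univ.erase 0, ?_⟩
    ext T
    rw [mem_filter, mem_singleton]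
    constructor
    · rintro ⟨hT, _⟩
      obtain ⟨⟨h2, h3⟩, _⟩ := mem_bl.1 hT
      exact eq_of_subset_of_card_le h2 (by rw [card_P, h3])
    · rintro rfl
      exact ⟨h1, mem_erase.2 ⟨hy, mem_univ _⟩⟩

theorem deg2_pos {n : ℕ} [NeZero n] {x y : ZMod n} (hy : y ≠ 0) (h1 : x - y ≠ 0)
    (h2 : x - y ≠ y) : 0 < deg n 2 x y := by
  refine deg_pos (T := {y, x - y}) (mem_bl.2 ⟨⟨?_, card_pair h2.symm⟩, ?_⟩)
    (mem_insert_self _ _)
  · intro t ht
    rw [mem_insert, mem_singleton] at ht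
    rcases ht with rfl | rfl
    · exact mem_erase.2 ⟨hy, mem_univ _⟩
    · exact mem_erase.2 ⟨h1, mem_univ _⟩
  · rw [sum_pair h2.symm]
    ring

theorem deg2_zero {n : ℕ} [NeZero n] {x y : ZMod n} (h : x - y = 0 ∨ x - y = y) :
    deg n 2 x y = 0 := by
  refine deg_zero fun T hT hy => ?_
  obtain ⟨⟨h1, h2⟩, h3⟩ := mem_bl.1 hT
  obtain ⟨z, hz⟩ : ∃ z, T.erase y = {z} := by
    rw [← card_eq_one, card_erase_of_mem hy, h2]
  have hzm : z ∈ T.erase y := by rw [hz]; exact mem_singleton_self z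
  have h4 := add_sum_erase T (fun t : ZMod n => t) hy
  rw [hz, sum_singleton, h3] at h4
  have h5 : x - y = z := by rw [← h4]; ring
  rw [h5] at h
  rcases h with h | h
  · exact (mem_erase.1 (h1 (mem_erase.1 hzm).2)).1 h
  · exact (mem_erase.1 hzm).1 h

theorem k2 : G_K2 := by
  intro n _ x he hn
  have hval : ((n / 2 : ℕ) : ZMod n).val = n / 2 := ZMod.val_natCast_of_lt (by omega)
  have h2 : 2 * (n / 2) = n := Nat.two_mul_div_two_of_even he
  by_cases hx : x = 0
  · subst hx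
    refine not_des (y := 1) (z := ((n / 2 : ℕ) : ZMod n)) ?_ ?_ (deg2_pos ?_ ?_ ?_)
      (deg2_zero (Or.inr ?_))
    · have : Fact (1 < n) := ⟨by omega⟩
      exact one_ne_zero
    · intro h
      rw [h, ZMod.val_zero] at hval
      omega
    · have : Fact (1 < n) := ⟨by omega⟩
      exact one_ne_zero
    · have : Fact (1 < n) := ⟨by omega⟩
      rw [zero_sub]
      exact neg_ne_zero.2 one_ne_zero
    · have : Fact (1 < n) := ⟨by omega⟩
      rw [zero_sub]
      intro h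
      rcases (ZMod.neg_eq_self_iff (1 : ZMod n)).1 h with h | h
      · exact one_ne_zero h
      · rw [ZMod.val_one] at h
        omega
    · rw [zero_sub, ZMod.neg_eq_self_iff]
      right
      rw [hval, h2]
  · have hcard : (univ.filter (fun y : ZMod n => y + y = x)).card ≤ 2 := by
      rcases (univ.filter (fun y : ZMod n => y + y = x)).eq_empty_or_nonempty with h | ⟨y0, hy0⟩
      · rw [h]
        simp
      · refine le_trans (card_le_card (t := {y0, y0 + ((n / 2 : ℕ) : ZMod n)}) ?_) card_le_two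
        intro y hy
        rw [mem_filter] at hy hy0
        have h3 : -(y - y0) = y - y0 := by
          have h4 : (y - y0) + (y - y0) = 0 := by
            have : (y - y0) + (y - y0) = (y + y) - (y0 + y0) := by ring
            rw [this, hy.2, hy0.2, sub_self]
          exact neg_eq_of_add_eq_zero_left h4
        rw [mem_insert, mem_singleton]
        rcases (ZMod.neg_eq_self_iff _).1 h3 with h | h
        · left
          exact sub_eq_zero.1 h
        · right
          have h5 : (y - y0).val = n / 2 := by omega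
          rw [← h5, ZMod.natCast_zmod_val]
          ring
    obtain ⟨y, hy⟩ := ex_not (({0, x} : Finset (ZMod n)) ∪
      univ.filter (fun y : ZMod n => y + y = x)) (by
        have h3 := card_union_le ({0, x} : Finset (ZMod n))
          (univ.filter (fun y : ZMod n => y + y = x))
        have h4 : ({0, x} : Finset (ZMod n)).card ≤ 2 := card_le_two
        omega)
    simp only [mem_union, mem_insert, mem_singleton, mem_filter, mem_univ, true_and,
      not_or] at hy
    refine not_des hy.1.1 hx (deg2_pos hy.1.1 ?_ ?_) (deg2_zero (Or.inl (sub_self x)))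
    · exact sub_ne_zero.2 (Ne.symm hy.1.2)
    · intro h
      apply hy.2
      nth_rewrite 1 [← h]
      ring

end Pool.Agent.Helper96.SD
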