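import Pool.Agent.Helper71.SD.Goals

/-! Packet EROT of MP_dcced1_gt. -/

namespace Pool.Agent.Helper71.SD.EROT

open Pool.Agent.Helper71.AHtpy SimpleGraph

theorem card_tog_mem {c : E} {S : Finset E} (h : c ∈ S) : (tog c S).card + 1 = S.card := by
  have e : tog c S = S.erase c := by
    ext i
    rw [mem_tog, Finset.mem_erase]
    constructor
    · rintro (⟨h1, h2⟩ | ⟨rfl, h2⟩)
      · exact ⟨h2, h1⟩
      · exact absurd h h2
    · rintro ⟨h1, h2⟩
      exact Or.inl ⟨h2, h1⟩
  rw [e, Finset.card_erase_add_one h]

theorem card_tog_not {c : E} {S : Finset E} (h : c ∉ S) : (tog c S).card = S.card + 1 := by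
  have e : tog c S = insert c S := by
    ext i
    rw [mem_tog, Finset.mem_insert]
    constructor
    · rintro (⟨h1, h2⟩ | ⟨rfl, h2⟩)
      · exact Or.inr h1
      · exact Or.inl rfl
    · rintro (rfl | h1)
      · exact Or.inr ⟨rfl, h⟩
      · exact Or.inl ⟨h1, fun h2 => h (h2 ▸ h1)⟩
  rw [e, Finset.card_insert_of_notMem h]

/-- the expected label -/
def lb (v : Finset E) (a b : E) (S : Finset E) : Option E :=
  if ((a ∈ S ↔ a ∈ v) ↔ (b ∈ S ↔ b ∈ v)) then some b else some a

theorem lb_tog {v : Finset E} {a b c : E} (ha : c ≠ a) (hb : c ≠ b) (S : Finset E) :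
    lb v a b (tog c S) = lb v a b S := by
  have h1 : a ∈ tog c S ↔ a ∈ S := by
    rw [mem_tog]
    constructor
    · rintro (⟨h, -⟩ | ⟨h, -⟩)
      · exact h
      · exact absurd h.symm ha
    · exact fun h => Or.inl ⟨h, ha.symm⟩
  have h2 : b ∈ tog c S ↔ b ∈ S := by
    rw [mem_tog]
    constructor
    · rintro (⟨h, -⟩ | ⟨h, -⟩)
      · exact h
      · exact absurd h.symm hb
    · exact fun h => Or.inl ⟨h, hb.symm⟩
  unfold lb
  simp only [h1, h2]

/-- the difference set -/
def DS (v : Finset E) (a b : E) (S : Finset E) : Finset E := (symmDiff S v) \ {a, b}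

theorem mem_DS {v : Finset E} {a b c : E} {S : Finset E} :
    c ∈ DS v a b S ↔ (c ∈ S ↔ c ∉ v) ∧ c ≠ a ∧ c ≠ b := by
  unfold DS
  rw [Finset.mem_sdiff, Finset.mem_symmDiff, Finset.mem_insert, Finset.mem_singleton]
  tauto

theorem DS_tog {v : Finset E} {a b c : E} {S : Finset E} (h : c ∈ DS v a b S) :
    DS v a b (tog c S) = (DS v a b S).erase c := by
  ext i
  rw [Finset.mem_erase, mem_DS, mem_DS, mem_tog]
  rw [mem_DS] at h
  by_cases hi : i = c
  · subst hi
    tauto
  · tauto

theorem card_DS_tog {v : Finset E} {a b c : E} {S : Finset E} (h : c ∈ DS v a b S) :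
    (DS v a b (tog c S)).card + 1 = (DS v a b S).card := by
  rw [DS_tog h, Finset.card_erase_add_one h]

theorem four {v : Finset E} {a b : E} {S : Finset E} (h : DS v a b S = ∅) :
    S = v ∨ S = tog a v ∨ S = tog b v ∨ S = tog b (tog a v) := by
  have h0 : ∀ c, c ≠ a → c ≠ b → (c ∈ S ↔ c ∈ v) := by
    intro c ha hb
    have : c ∉ DS v a b S := by rw [h]; exact Finset.notMem_empty c
    rw [mem_DS] at this
    tauto
  by_cases ha : (a ∈ S ↔ a ∈ v)
  · by_cases hb : (b ∈ S ↔ b ∈ v)
    · left
      ext c
      by_cases h1 : c = a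
      · subst h1; exact ha
      · by_cases h2 : c = b
        · subst h2; exact hb
        · exact h0 c h1 h2
    · right; right; left
      ext c
      rw [mem_tog]
      by_cases h2 : c = b
      · subst h2
        tauto
      · by_cases h1 : c = a
        · subst h1
          tauto
        · have := h0 c h1 h2
          tauto
  · by_cases hb : (b ∈ S ↔ b ∈ v)
    · right; left
      ext c
      rw [mem_tog]
      by_cases h1 : c = a
      · subst h1
        tauto
      · by_cases h2 : c = b
        · subst h2
          tauto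
        · have := h0 c h1 h2
          tauto
    · by_cases hab : a = b
      · subst hab
        right; left
        ext c
        rw [mem_tog]
        by_cases h1 : c = a
        · subst h1
          tauto
        · have := h0 c h1 h1
          tauto
      · right; right; right
        ext c
        rw [mem_tog, mem_tog]
        by_cases h1 : c = a
        · subst h1
          tauto
        · by_cases h2 : c = b
          · subst h2
            tauto
          · have := h0 c h1 h2
            tauto

theorem two_of_card {v : Finset E} {a b : E} {S U : Finset E} (hU : 4 ≤ U.card)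
    (h : ∀ c ∈ U, (c ∈ S ↔ c ∉ v)) : ∃ c c', c ≠ c' ∧ c ∈ U ∧ c' ∈ U ∧ c ∈ DS v a b S ∧
      c' ∈ DS v a b S := by
  have h1 : 1 < (U \ {a, b}).card := by
    have h2 := Finset.le_card_sdiff ({a, b} : Finset E) U
    have h3 : ({a, b} : Finset E).card ≤ 2 := Finset.card_le_two
    omega
  obtain ⟨c, hc, c', hc', hne⟩ := Finset.one_lt_card.1 h1
  rw [Finset.mem_sdiff, Finset.mem_insert, Finset.mem_singleton, not_or] at hc hc'
  exact ⟨c, c', hne, hc.1, hc'.1, mem_DS.2 ⟨h c hc.1, hc.2.1, hc.2.2⟩,
    mem_DS.2 ⟨h c' hc'.1, hc'.2.1, hc'.2.2⟩⟩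

theorem exists_two {v : Finset E} {a b : E} {S : Finset E} (hv : Bd 2 v) (hS : Bd 6 S)
    (hd : 2 ≤ (DS v a b S).card) : ∃ c c', c ≠ c' ∧ c ∈ DS v a b S ∧ c' ∈ DS v a b S ∧
      Bd 6 (tog c S) ∧ Bd 6 (tog c' S) := by
  unfold Bd at hv hS ⊢
  by_cases h1 : S.card = 36
  · have h2 : 4 ≤ (S \ v).card := by
      have := Finset.le_card_sdiff v S
      omega
    obtain ⟨c, c', h3, h4, h5, h6, h7⟩ := two_of_card (v := v) (a := a) (b := b) (S := S) h2
      (fun c hc => by
        rw [Finset.mem_sdiff] at hc
        tauto)
    rw [Finset.mem_sdiff] at h4 h5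
    have h8 := card_tog_mem h4.1
    have h9 := card_tog_mem h5.1
    exact ⟨c, c', h3, h6, h7, ⟨by omega, by omega⟩, ⟨by omega, by omega⟩⟩
  by_cases h1' : S.card = 24
  · have h2 : 4 ≤ (v \ S).card := by
      have := Finset.le_card_sdiff S v
      omega
    obtain ⟨c, c', h3, h4, h5, h6, h7⟩ := two_of_card (v := v) (a := a) (b := b) (S := S) h2
      (fun c hc => by
        rw [Finset.mem_sdiff] at hc
        tauto)
    rw [Finset.mem_sdiff] at h4 h5
    have h8 := card_tog_not h4.2
    have h9 := card_tog_not h5.2
    exact ⟨c, c', h3, h6, h7, ⟨by omega, by omega⟩, ⟨by omega, by omega⟩⟩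
  · obtain ⟨c, hc, c', hc', hne⟩ := Finset.one_lt_card.1 (show 1 < (DS v a b S).card by omega)
    have h8 : ∀ x : E, 30 ≤ (tog x S).card + 6 ∧ (tog x S).card ≤ 30 + 6 := by
      intro x
      by_cases hx : x ∈ S
      · have := card_tog_mem hx
        constructor <;> omega
      · have := card_tog_not hx
        constructor <;> omega
    exact ⟨c, c', hne, hc, hc', h8 c, h8 c'⟩

theorem erot : S_EROT := by
  intro δ hR v a b hv hab h0 h1 h2 h3 h4
  have hlv : lb v a b v = some b := by simp [lb]
  have hla : lb v a b (tog a v) = some a := by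
    unfold lb
    rw [if_neg]
    rw [mem_tog, mem_tog]
    tauto
  have hlb : lb v a b (tog b v) = some a := by
    unfold lb
    rw [if_neg]
    rw [mem_tog, mem_tog]
    tauto
  have hlab : lb v a b (tog b (tog a v)) = some b := by
    unfold lb
    rw [if_pos]
    rw [mem_tog, mem_tog, mem_tog, mem_tog]
    tauto
  have key : ∀ (n : ℕ) (S : Finset E), Bd 6 S → (DS v a b S).card = n →
      δ S = lb v a b S := by
    intro n
    induction n using Nat.strong_induction_on with
    | _ n ih =>
      intro S hS hn
      rcases Nat.lt_or_ge n 1 with hn1 | hn1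
      · have hE : DS v a b S = ∅ := Finset.card_eq_zero.1 (by omega)
        rcases four hE with rfl | rfl | rfl | rfl
        · rw [hlv, h0]
        · rw [hla, h1]
        · rw [hlb, h2]
        · rw [hlab, h3]
      rcases Nat.lt_or_ge n 2 with hn2 | hn2
      · obtain ⟨c, hc⟩ := Finset.card_eq_one.1 (show (DS v a b S).card = 1 by omega)
        have hcm : c ∈ DS v a b S := by rw [hc]; exact Finset.mem_singleton_self c
        have hE : DS v a b (tog c S) = ∅ := by
          rw [DS_tog hcm, hc]
          simp
        have hca := (mem_DS.1 hcm).2.1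
        have hcb := (mem_DS.1 hcm).2.2
        obtain ⟨k1, k2, k3, k4⟩ := h4 c hca hcb
        have hS' : S = tog c (tog c S) := (tog_tog c S).symm
        rcases four hE with h | h | h | h
        · rw [hS', h, lb_tog hca hcb, hlv, k1]
        · rw [hS', h, lb_tog hca hcb, hla, k2]
        · rw [hS', h, lb_tog hca hcb, hlb, k3]
        · rw [hS', h, lb_tog hca hcb, hlab, k4]
      · obtain ⟨c, c', hne, hc, hc', hb, hb'⟩ := exists_two (a := a) (b := b) hv hS (by omega)
        have hca := (mem_DS.1 hc).2.1
        have hcb := (mem_DS.1 hc).2.2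
        have hca' := (mem_DS.1 hc').2.1
        have hcb' := (mem_DS.1 hc').2.2
        have e1 := ih _ (by have := card_DS_tog hc; omega) (tog c S) hb rfl
        have e2 := ih _ (by have := card_DS_tog hc'; omega) (tog c' S) hb' rfl
        rw [lb_tog hca hcb] at e1
        rw [lb_tog hca' hcb'] at e2
        have hx : ∀ x : E, x ≠ a → x ≠ b → lb v a b S ≠ some x := by
          intro x hxa hxb
          unfold lb
          split_ifs
          · exact fun h => hxb (Option.some.inj h).symm
          · exact fun h => hxa (Option.some.inj h).symm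
        rcases hR S c hS hb with r | r | r
        · rw [r, e1]
        · rcases hR S c' hS hb' with r' | r' | r'
          · rw [r', e2]
          · rw [r] at r'
            exact absurd (Option.some.inj r') hne
          · rw [e2] at r'
            exact absurd r' (hx c' hca' hcb')
        · rw [e1] at r
          exact absurd r (hx c hca hcb)
  intro S hS
  have hk := key _ S hS rfl
  constructor
  · intro h
    rw [hk]
    unfold lb
    rw [if_pos h]
  · intro h
    rw [hk]
    unfold lb
    rw [if_neg h]

end Pool.Agent.Helper71.SD.EROT
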