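import Pool.Agent.Helper71.SD.Goals

/-! Packet TW1 of MP_dcced1_gt. -/

namespace Pool.Agent.Helper71.SD.TW1

open Pool.Agent.Helper71.AHtpy SimpleGraph

theorem sum_le (h1 : S_XC1) (i : E) (S : Finset E) :
    ∑ a : Fin 3, |min 3 (cnt a S : ℤ) - min 3 (cnt a (tog i S) : ℤ)| ≤ 1 := by
  obtain ⟨-, -, h, -⟩ := h1
  have h2 : ∀ a : Fin 3, |min 3 (cnt a S : ℤ) - min 3 (cnt a (tog i S) : ℤ)| ≤
      if blk i = a then 1 else 0 := by
    intro a
    obtain ⟨k1, k2, k3⟩ := h a i S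
    split_ifs with hb
    · by_cases hi : i ∈ S
      · have := k2 hb hi
        rw [abs_le]
        constructor <;> omega
      · have := k3 hb hi
        rw [abs_le]
        constructor <;> omega
    · have := k1 hb
      rw [this, sub_self, abs_zero]
  refine (Finset.sum_le_sum fun a _ => h2 a).trans ?_
  rw [Finset.sum_ite_eq]
  simp

theorem tw1 : S_XC1 → S_XC2 → S_TW1 := by
  intro h1 h2
  have hc : ∀ (i : E) (S : Finset E), (tog i S)ᶜ = tog i Sᶜ := h1.2.2.2.2.2.1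
  have r0 : ∀ S, NP S → ∀ a, rk0 (xc S) a = min 3 (cnt a S : ℤ) ∧
      rk1 (xc S) a = min 3 (cnt a Sᶜ : ℤ) := by
    intro S hS a
    have hex : ∃ S', NP S' ∧ xc S' = xc S := ⟨S, hS, rfl⟩
    have k := h2.2.2.2.2.1 hex.choose S hex.choose_spec.1 hS hex.choose_spec.2 a
    unfold rk0 rk1
    rw [dif_pos hex, dif_pos hex]
    constructor
    · have := k.1
      omega
    · have := k.2
      omega
  refine ⟨r0, ?_, ?_⟩
  · rintro y y' ⟨-, S, T, ⟨i, rfl⟩, hS, hT, rfl, rfl⟩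
    constructor
    · have e : ∑ a, |rk0 (xc S) a - rk0 (xc (tog i S)) a| =
          ∑ a : Fin 3, |min 3 (cnt a S : ℤ) - min 3 (cnt a (tog i S) : ℤ)| :=
        Finset.sum_congr rfl fun a _ => by rw [(r0 S hS a).1, (r0 _ hT a).1]
      rw [e]
      exact sum_le h1 i S
    · have e : ∑ a, |rk1 (xc S) a - rk1 (xc (tog i S)) a| =
          ∑ a : Fin 3, |min 3 (cnt a Sᶜ : ℤ) - min 3 (cnt a (tog i Sᶜ) : ℤ)| :=
        Finset.sum_congr rfl fun a _ => by rw [(r0 S hS a).2, (r0 _ hT a).2, hc]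
      rw [e]
      exact sum_le h1 i Sᶜ
  · intro y
    by_cases hex : ∃ S, NP S ∧ xc S = y
    · obtain ⟨S, hS, rfl⟩ := hex
      obtain ⟨⟨a, ha⟩, ⟨b, hb⟩⟩ := (h2.1 S).1 hS
      refine ⟨⟨a, ?_⟩, ⟨b, ?_⟩⟩
      · rw [(r0 S hS a).1]
        omega
      · rw [(r0 S hS b).2]
        omega
    · refine ⟨⟨0, ?_⟩, ⟨0, ?_⟩⟩
      · unfold rk0
        rw [dif_neg hex]
      · unfold rk1
        rw [dif_neg hex]

end Pool.Agent.Helper71.SD.TW1
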